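import Pool.Agent.H240.BR.Def

/-!
# Generic metrics: the area
-/

set_option autoImplicit false
set_option linter.unusedSectionVars false

open Set Filter Topology MeasureTheory
open scoped ContDiff ComplexConjugate Real

noncomputable section

namespace Pool.Agent.H240.BR

open Pool.Agent.Y262.EG Pool.Agent.Y262.EX Pool.Agent.Y262.EL Pool.Agent.Y262.QE
open Pool.Agent.Y264.QR Pool.Agent.H240.SC Pool.Agent.H240.SG Pool.Agent.H240.CG
open Pool.Agent.H240.AL Pool.Agent.H240.GU Pool.Agent.H240.GV

/-- two areas of the same metric agree -/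
theorem area_uniq {M P : Type} [MetricSpace M] [CompactSpace M] [MetricSpace P] [CompactSpace P]
    [MeasurableSpace M] [BorelSpace M] {Ω : Set ℂ} {φ Φ : ℂ → ℝ} {pr : ℂ → M} {q : Y → P}
    (hUT : IsUT Ω φ pr q) {μ μ' : Measure M} (h1 : IsArea Ω Φ pr μ) (h2 : IsArea Ω Φ pr μ') :
    μ = μ' := by
  classical
  obtain ⟨t, ht⟩ := isCompact_univ.elim_finite_subcover
    (fun z : Ω => pr '' Metric.ball z.1 (hUT.injp z.1 z.2).choose)
    (fun z => hUT.opnp _ Metric.isOpen_ball (hUT.injp z.1 z.2).choose_spec.2.1) (by
      intro x _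
      have hx : x ∈ pr '' Ω := by rw [hUT.surjp]; trivial
      obtain ⟨z, hz, rfl⟩ := hx
      exact mem_iUnion.2 ⟨⟨z, hz⟩, z,
        Metric.mem_ball_self (hUT.injp z hz).choose_spec.1, rfl⟩)
  set B : Ω → Set ℂ := fun z => Metric.ball z.1 (hUT.injp z.1 z.2).choose with hB
  have hBo : ∀ z, IsOpen (B z) := fun z => Metric.isOpen_ball
  have hBs : ∀ z, B z ⊆ Ω := fun z => (hUT.injp z.1 z.2).choose_spec.2.1
  have hBi : ∀ z, InjOn pr (B z) := fun z => (hUT.injp z.1 z.2).choose_spec.2.2
  -- on one piece
  have hpiece : ∀ (z : Ω) (S : Set M), MeasurableSet S → S ⊆ pr '' B z → μ S = μ' S := by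
    intro z S hS hSB
    have hcont : ContinuousOn pr (B z) := hUT.contp.mono (hBs z)
    have hm : MeasurableSet (B z ∩ pr ⁻¹' S) := by
      have h3 : Measurable ((B z).piecewise pr fun _ => pr z.1) :=
        hcont.measurable_piecewise continuousOn_const (hBo z).measurableSet
      have h4 : B z ∩ pr ⁻¹' S = B z ∩ ((B z).piecewise pr fun _ => pr z.1) ⁻¹' S := by
        ext w
        constructor
        · rintro ⟨h5, h6⟩
          refine ⟨h5, ?_⟩
          show (B z).piecewise pr (fun _ => pr z.1) w ∈ S
          rw [piecewise_eq_of_mem _ _ _ h5]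
          exact h6
        · rintro ⟨h5, h6⟩
          refine ⟨h5, ?_⟩
          have h7 : (B z).piecewise pr (fun _ => pr z.1) w ∈ S := h6
          rw [piecewise_eq_of_mem _ _ _ h5] at h7
          exact h7
      rw [h4]
      exact (hBo z).measurableSet.inter (h3 hS)
    have e : pr '' (B z ∩ pr ⁻¹' S) = S := by
      ext x
      constructor
      · rintro ⟨w, hw, rfl⟩
        exact hw.2
      · intro hx
        obtain ⟨w, hw, rfl⟩ := hSB hx
        exact ⟨w, ⟨hw, hx⟩, rfl⟩
    rw [← e, h1 _ hm (inter_subset_left.trans (hBs z)) ((hBi z).mono inter_subset_left),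
      h2 _ hm (inter_subset_left.trans (hBs z)) ((hBi z).mono inter_subset_left)]
  -- induction over the cover
  have hind : ∀ (s : Finset Ω) (S : Set M), MeasurableSet S → S ⊆ ⋃ z ∈ s, pr '' B z →
      μ S = μ' S := by
    intro s
    induction s using Finset.induction_on with
    | empty =>
      intro S _ hSs
      have : S = ∅ := by
        rw [eq_empty_iff_forall_notMem]
        intro x hx
        have := hSs hx
        simp at this
      rw [this]
      simp
    | insert z s hz ih =>
      intro S hS hSs
      have hO : IsOpen (pr '' B z) := hUT.opnp _ (hBo z) (hBs z)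
      rw [← measure_inter_add_diff S hO.measurableSet, ← measure_inter_add_diff (μ := μ') S
        hO.measurableSet, hpiece z _ (hS.inter hO.measurableSet) inter_subset_right,
        ih _ (hS.diff hO.measurableSet) ?_]
      intro x hx
      have h3 := hSs hx.1
      simp only [Finset.mem_insert, iUnion_iUnion_eq_or_left, mem_union] at h3
      rcases h3 with h3 | h3
      · exact absurd h3 hx.2
      · exact h3
  ext S hS
  exact hind t S hS fun x _ => ht (mem_univ x)

theorem stArC : StArC := by
  intro M P _ _ _ _ _ _ Ω φ pr q f μ hUT hμ hfin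
  have key : IsArea Ω (fun z => φ z + f (pr z)) pr (wm μ fun x => Real.exp (2 * f x)) := by
    intro B hB hBs hi
    obtain ⟨hm, hG, -⟩ := (tCVM M P Ω φ pr q μ hUT hμ).1 B hB hBs hi
    show (μ.withDensity fun x => ENNReal.ofReal (Real.exp (2 * f x))) (pr '' B) = _
    rw [withDensity_apply _ hm, hG (fun x => ENNReal.ofReal (Real.exp (2 * f x)))
      (by fun_prop)]
    refine setLIntegral_congr_fun hB fun z _ => ?_
    simp only
    rw [← ENNReal.ofReal_mul (Real.exp_nonneg _), ← Real.exp_add]
    congr 2
    ring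
  exact ⟨key, fun ν hν => area_uniq hUT hν key⟩

end Pool.Agent.H240.BR
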