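import Pool.Agent.H240.BR.Def

/-!
# Generic metrics: the data of the surface
-/

set_option autoImplicit false
set_option linter.unusedSectionVars false

open Set Filter Topology MeasureTheory
open scoped ContDiff ComplexConjugate Real

noncomputable section

namespace Pool.Agent.H240.BR

open Pool.Agent.Y262.EG Pool.Agent.Y262.EX Pool.Agent.Y262.EL Pool.Agent.Y262.QE
open Pool.Agent.Y264.QR Pool.Agent.H240.SC Pool.Agent.H240.SG Pool.Agent.H240.CG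
open Pool.Agent.H240.AL Pool.Agent.H240.GU Pool.Agent.H240.GV

/-- the data of a surface -/
structure Dt {M : Type} [MetricSpace M] [MeasurableSpace M] (Ω : Set ℂ) (φ : ℂ → ℝ) (pr : ℂ → M)
    (μ : Measure M) (D : Data M) : Prop where
  surf : D.IsSurf μ
  cmp : Compat D Ω φ pr
  area : IsArea Ω φ pr μ

section

variable {M P : Type} [MetricSpace M] [CompactSpace M] [MetricSpace P] [CompactSpace P]
  [MeasurableSpace M] [BorelSpace M] {Ω : Set ℂ} {φ : ℂ → ℝ} {pr : ℂ → M} {q : Y → P}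
  {μ : Measure M} {D : Data M}

theorem dt_conf (hAr : StArC) (hUT : IsUT Ω φ pr q) (h : Dt Ω φ pr μ D) (f : C(M, ℝ)) :
    Dt Ω (fun z => φ z + f (pr z)) pr (wm μ fun x => Real.exp (2 * f x))
      (D.conf fun x => Real.exp (2 * f x)) := by
  have hfin : IsFiniteMeasure μ := (tFin M μ D h.surf).1
  refine ⟨(tConf M μ D h.surf (fun x => Real.exp (2 * f x)) (by fun_prop)
    (fun x => Real.exp_pos _)).1, fun i => ?_, (hAr M P Ω φ pr q f μ hUT h.area hfin).1⟩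
  obtain ⟨b, hb, h'⟩ := h.cmp i
  refine ⟨b, hb, fun z hz => ?_⟩
  obtain ⟨h1, h2, h3, h4⟩ := h' z hz
  refine ⟨h1, h2, h3, fun v => ?_⟩
  show ‖(Real.sqrt (Real.exp (2 * f (D.ψ i z))) • D.A i z) v‖ = _
  have e1 : Real.sqrt (Real.exp (2 * f (D.ψ i z))) = Real.exp (f (D.ψ i z)) := by
    rw [two_mul, Real.exp_add, Real.sqrt_mul_self (Real.exp_nonneg _)]
  rw [e1, ContinuousLinearMap.smul_apply, norm_smul, h4, Real.norm_eq_abs,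
    abs_of_pos (Real.exp_pos _), h2, Real.exp_add]
  ring

end

/-- the data exist for surfaces with a simple closed geodesic -/
theorem dt_ex (hCm : StCmpG) {M P : Type} [MetricSpace M] [CompactSpace M] [MetricSpace P]
    [CompactSpace P] [MeasurableSpace M] [BorelSpace M] {Ω : Set ℂ} {φ : ℂ → ℝ} {pr : ℂ → M}
    {q : Y → P} {c : ℝ → ℂ} {R0 : ℝ} {Γ : ℕ → ℂ → ℂ} (hUT : IsUT Ω φ pr q) (hGc : Gc Ω φ pr c)
    (hAp : Ap c Γ) (hR : ∀ z ∈ Ω, z.re < R0) (hneg : ∀ z ∈ Ω, curv φ z < 0) :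
    ∃ (μ : Measure M) (D : Data M), Dt Ω φ pr μ D ∧ Nonempty M := by
  obtain ⟨N1, hN1⟩ := tEmb M P Ω φ pr q c Γ hUT hGc hAp
  obtain ⟨N2, C0, hN2⟩ := tLine M P Ω φ pr q c Γ hUT hGc hAp
  obtain ⟨N3, k, K, hk, hK, hN3⟩ := tBds M P Ω φ pr q c Γ hUT hGc hAp hneg
  obtain ⟨N4, K', C', hK', hC', hN4⟩ := tTay k K (max C0 0) hk hK (le_max_right _ _)
  obtain ⟨B, θ, hB, hθ, hFl2⟩ := tFl2 k K' hk hK'
  -- the flattening in the collar number `n`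
  have hstep : ∀ n : ℕ, N1 ≤ n → N2 ≤ n → N3 ≤ n → N4 ≤ n → ∀ δ : ℝ, δ = 1 / ((n : ℝ) + 1) →
      C' * δ ^ 4 ≤ θ * δ ^ 2 → Cg Ω pr (Γ n) δ ∧ ∃ (w : ℂ → ℝ) (cc r0 : ℝ),
      Su (Uo Ω R0 δ) (Uf Ω φ (Γ n) R0 δ) (Up Ω pr (Γ n) R0 δ) (Uq Ω q (Γ n) R0 δ) (R0 + δ) δ w cc
        r0 := by
    intro n h1 h2 h3 h4 δ hδ he
    have hCg := hN1 n h1
    have hn0 : (0 : ℝ) < (n : ℝ) + 1 := by positivity
    have hδ1 : δ ≤ 1 := by
      rw [hδ, div_le_one hn0]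
      linarith [show (0 : ℝ) ≤ (n : ℝ) from Nat.cast_nonneg n]
    obtain ⟨b1, b2, b3⟩ := hN3 n h3
    have hline : ∀ z : ℂ, z.re = 0 → |Pb φ (Γ n) z| ≤ max C0 0 / ((n : ℝ) + 1) ^ 4 ∧
        |px (Pb φ (Γ n)) z| ≤ max C0 0 / ((n : ℝ) + 1) ^ 4 ∧
        |py (Pb φ (Γ n)) z| ≤ max C0 0 / ((n : ℝ) + 1) ^ 4 ∧
        |py (py (Pb φ (Γ n))) z| ≤ max C0 0 / ((n : ℝ) + 1) ^ 4 := by
      intro z hz
      obtain ⟨a1, a2, a3, a4⟩ := hN2 n h2 z hz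
      have a5 : C0 / ((n : ℝ) + 1) ^ 4 ≤ max C0 0 / ((n : ℝ) + 1) ^ 4 :=
        div_le_div_of_nonneg_right (le_max_left _ _) (by positivity)
      exact ⟨a1.trans a5, a2.trans a5, a3.trans a5, a4.trans a5⟩
    have hbd := hN4 n (Pb φ (Γ n)) h4 b1 b2 b3 hline
    have hee : C' / ((n : ℝ) + 1) ^ 4 = C' * δ ^ 4 := by
      rw [hδ]
      field_simp
    rw [hee, ← hδ] at hbd
    rw [← hδ] at hCg
    have hbd' := bd_shift hR hbd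
    have hUT' := tUn1 M P Ω φ pr q (Γ n) δ R0 hUT hCg hR
    obtain ⟨hCo', -, -, -⟩ := tUn2 M P Ω φ pr q (Γ n) δ R0 hUT hCg hR
    have hδp := hCg.δp
    obtain ⟨w, cc, r, hFl, hc, hw, hw2, hwB⟩ := hFl2 (Uf Ω φ (Γ n) R0 δ) (R0 + δ) δ (C' * δ ^ 4)
      hδp hδ1 (by positivity) he hbd'
    obtain ⟨-, -, hcxp⟩ := tCx M P _ _ _ _ (R0 + δ) δ hUT' hCo'
    exact ⟨hCg, w, cc, r, ⟨hUT', hCo', hFl, hw2, hcxp⟩⟩
  have hδt : Tendsto (fun n : ℕ => 1 / ((n : ℝ) + 1)) atTop (𝓝 0) :=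
    tendsto_one_div_add_atTop_nhds_zero_nat
  have hE2 : ∀ᶠ n : ℕ in atTop, C' * (1 / ((n : ℝ) + 1)) ^ 2 < θ := by
    have h1 := (hδt.pow 2).const_mul C'
    rw [zero_pow (by norm_num), mul_zero] at h1
    exact h1.eventually (gt_mem_nhds hθ)
  have hE1 : ∀ᶠ n : ℕ in atTop, N1 ≤ n ∧ N2 ≤ n ∧ N3 ≤ n ∧ N4 ≤ n :=
    (eventually_ge_atTop N1).and ((eventually_ge_atTop N2).and
      ((eventually_ge_atTop N3).and (eventually_ge_atTop N4)))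
  have hE2' : ∀ {δ : ℝ}, C' * δ ^ 2 < θ → C' * δ ^ 4 ≤ θ * δ ^ 2 := by
    intro δ h
    have h1 := mul_le_mul_of_nonneg_right h.le (sq_nonneg δ)
    calc C' * δ ^ 4 = C' * δ ^ 2 * δ ^ 2 := by ring
      _ ≤ θ * δ ^ 2 := h1
  obtain ⟨n, ⟨h1, h2, h3, h4⟩, h5⟩ := (hE1.and hE2).exists
  obtain ⟨hCg, w, cc, r0, hSu⟩ := hstep n h1 h2 h3 h4 _ rfl (hE2' h5)
  obtain ⟨μ0, D, Φ, hBu⟩ := bu_ex tBase hSu
  have hz : ContDiffOn ℝ ∞ (fun z => (fun _ : M => (0 : ℝ)) (Up Ω pr (Γ n) R0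
    (1 / ((n : ℝ) + 1)) z)) (Uo Ω R0 (1 / ((n : ℝ) + 1))) := contDiffOn_const
  obtain ⟨κ, hκ, b1, b2, b3⟩ := fdata hSu hBu (f := fun _ => 0) hz
  refine ⟨wm μ0 fun x => Real.exp (κ x), D.conf fun x => Real.exp (κ x), ⟨b1, ?_, ?_⟩, ⟨Φ 0⟩⟩
  · have h6 := hCm M P Ω φ pr q (Γ n) _ R0 hUT hCg hR _ (fun _ => 0) b1.openT b2
    exact cmp_congr h6 fun z _ => (add_zero _).symm
  · have h6 := area_in (f := fun _ => (0 : ℝ)) b3
    exact area_congr h6 fun z _ => (add_zero _).symm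

end Pool.Agent.H240.BR
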