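import Pool.Agent.H240.GU.Fin5

/-!
# Generic metrics in the closure of the negatively curved metrics: statements
-/

set_option autoImplicit false
set_option linter.unusedSectionVars false

open Set Filter Topology MeasureTheory
open scoped ContDiff ComplexConjugate Real

noncomputable section

namespace Pool.Agent.H240.BR

open Pool.Agent.Y262.EG Pool.Agent.Y262.EX Pool.Agent.Y262.EL Pool.Agent.Y262.QE
open Pool.Agent.Y264.QR Pool.Agent.H240.SC Pool.Agent.H240.SG Pool.Agent.H240.CG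
open Pool.Agent.H240.AL Pool.Agent.H240.GU Pool.Agent.H240.GV

/-- the scalar product of the gradients of two functions on the surface with the metric
`exp (2 Φ) |dz|²`, at the point `x`; it is computed at some point of `Ω` over `x` -/
def dot {M : Type} (Ω : Set ℂ) (Φ : ℂ → ℝ) (pr : ℂ → M) (F G : M → ℝ) (x : M) : ℝ :=
  open Classical in if h : ∃ z, z ∈ Ω ∧ pr z = x then
    Real.exp (-2 * Φ h.choose) *
      (px (fun z => F (pr z)) h.choose * px (fun z => G (pr z)) h.choose +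
        py (fun z => F (pr z)) h.choose * py (fun z => G (pr z)) h.choose) else 0

/-- weak eigenfunctions of the surface with the continuous metric `exp (2 Φ) |dz|²` -/
structure WkEf {M : Type} [MeasurableSpace M] (Ω : Set ℂ) (Φ : ℂ → ℝ) (pr : ℂ → M)
    (μ : Measure M) (lam : ℝ) (u : M → ℝ) : Prop where
  mem : MemLp u 2 μ
  ex : ∃ F : ℕ → M → ℝ, (∀ k, ContDiffOn ℝ 1 (fun z => F k (pr z)) Ω) ∧
    Tendsto (fun k => ∫ x, (F k x - u x) ^ 2 ∂μ) atTop (𝓝 0) ∧
    Tendsto (fun p : ℕ × ℕ => ∫ x, dot Ω Φ pr (fun y => F p.1 y - F p.2 y)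
      (fun y => F p.1 y - F p.2 y) x ∂μ) atTop (𝓝 0) ∧
    ∀ G : M → ℝ, ContDiffOn ℝ 1 (fun z => G (pr z)) Ω →
      Tendsto (fun k => ∫ x, dot Ω Φ pr (F k) G x ∂μ) atTop (𝓝 (lam * ∫ x, u x * G x ∂μ))

/-- BR-1: weak eigenfunctions in the sense of the covering domain and in the sense of the charts -/
def StWk : Prop :=
  ∀ (M P : Type) [MetricSpace M] [CompactSpace M] [MetricSpace P] [CompactSpace P]
    [MeasurableSpace M] [BorelSpace M] (Ω : Set ℂ) (φ : ℂ → ℝ) (pr : ℂ → M) (q : Y → P)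
    (f : C(M, ℝ)) (D : Data M) (μ : Measure M), IsUT Ω φ pr q → D.IsSurf μ →
    Compat D Ω (fun z => φ z + f (pr z)) pr →
    ∀ (lam : ℝ) (u : M → ℝ), WkEf Ω (fun z => φ z + f (pr z)) pr μ lam u ↔ D.IsEig μ lam u

/-- BR-2: finitely many functions such that each curve with bounded speed misses one of them -/
def StMiss : Prop :=
  ∀ (M P : Type) [MetricSpace M] [CompactSpace M] [MetricSpace P] [CompactSpace P]
    (Ω : Set ℂ) (φ : ℂ → ℝ) (pr : ℂ → M) (q : Y → P), IsUT Ω φ pr q → ∀ R : ℝ,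
    ∃ T : Finset C(M, ℝ), (∀ h ∈ T, (∀ x, 0 ≤ h x) ∧ ∃ x, h x ≠ 0) ∧
    ∀ c : ℝ → ℂ, ContDiff ℝ 1 c → (∀ t, c t ∈ Ω) →
      (∀ t, ‖deriv c t‖ ≤ R * Real.exp (-φ (c t))) →
      ∃ h ∈ T, ∀ t ∈ Icc 0 (2 * π), h (pr (c t)) = 0

/-- BR-3: the area of `exp (2 f)` times a smooth metric, `f` continuous -/
def StArC : Prop :=
  ∀ (M P : Type) [MetricSpace M] [CompactSpace M] [MetricSpace P] [CompactSpace P]
    [MeasurableSpace M] [BorelSpace M] (Ω : Set ℂ) (φ : ℂ → ℝ) (pr : ℂ → M) (q : Y → P)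
    (f : C(M, ℝ)) (μ : Measure M), IsUT Ω φ pr q → IsArea Ω φ pr μ → IsFiniteMeasure μ →
    IsArea Ω (fun z => φ z + f (pr z)) pr (wm μ fun x => Real.exp (2 * f x)) ∧
    ∀ ν : Measure M, IsArea Ω (fun z => φ z + f (pr z)) pr ν →
      ν = wm μ fun x => Real.exp (2 * f x)

/-- BR-4: compatibility with the union of the domain and of the strip implies compatibility with the
domain -/
def StCmpG : Prop :=
  ∀ (M P : Type) [MetricSpace M] [CompactSpace M] [MetricSpace P] [CompactSpace P]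
    (Ω : Set ℂ) (φ : ℂ → ℝ) (pr : ℂ → M) (q : Y → P) (Γ : ℂ → ℂ) (δ R0 : ℝ), IsUT Ω φ pr q →
    Cg Ω pr Γ δ → (∀ z ∈ Ω, z.re < R0) → ∀ (D : Data M) (g : M → ℝ), (∀ i, IsOpen (D.T i)) →
    Compat D (Uo Ω R0 δ) (fun z => Uf Ω φ Γ R0 δ z + g (Up Ω pr Γ R0 δ z)) (Up Ω pr Γ R0 δ) →
    Compat D Ω (fun z => φ z + g (pr z)) pr

end Pool.Agent.H240.BR
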