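import Pool.Agent.H240.BR.Fin
import Pool.Agent.H327.BR.Wk
import Pool.Agent.H351.BR.MissW
import Pool.Agent.H945.BR.Cmp

/-!
# Generic metrics: the conclusion for group actions
-/

set_option autoImplicit false
set_option linter.unusedSectionVars false

open Set Filter Topology MeasureTheory
open scoped ContDiff ComplexConjugate Real

noncomputable section

namespace Pool.Agent.H240.BR

open Pool.Agent.Y262.EG Pool.Agent.Y262.EX Pool.Agent.Y262.EL Pool.Agent.Y262.QE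
open Pool.Agent.Y264.QR Pool.Agent.H240.SC Pool.Agent.H240.SG Pool.Agent.H240.CG
open Pool.Agent.H240.AL Pool.Agent.H240.GU Pool.Agent.H240.GV

theorem tWk : StWk := Pool.Agent.H327.BR.stWk
theorem tMs : StMiss := Pool.Agent.H351.BR.stMiss
theorem tCm : StCmpG := Pool.Agent.H945.BR.stCmpG

/-- the integral of a nonnegative function -/
theorem int_pos {M : Type} [MetricSpace M] [CompactSpace M] [MeasurableSpace M] [BorelSpace M]
    {μ : Measure M} {D : Data M} (hD : D.IsSurf μ) {g : C(M, ℝ)} (h0 : ∀ x, 0 ≤ g x)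
    (h1 : ∃ x, g x ≠ 0) : 0 < ∫ x, g x ∂μ := by
  obtain ⟨hfin, hpos⟩ := tFin M μ D hD
  have hI : Integrable (fun x => g x) μ := by
    obtain ⟨B, hB⟩ := isCompact_univ.exists_bound_of_continuousOn g.continuous.continuousOn
    exact Integrable.of_bound g.continuous.aestronglyMeasurable B
      (Filter.Eventually.of_forall fun x => hB x (mem_univ x))
  rw [integral_pos_iff_support_of_nonneg h0 hI]
  obtain ⟨x, hx⟩ := h1
  have ho : IsOpen (Function.support fun x => g x) := g.continuous.isOpen_support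
  exact hpos _ ho ⟨x, hx⟩

/-- weak and smooth eigenfunctions -/
theorem wk_sm {M P : Type} [MetricSpace M] [CompactSpace M] [MetricSpace P] [CompactSpace P]
    [MeasurableSpace M] [BorelSpace M] {Ω : Set ℂ} {φ : ℂ → ℝ} {pr : ℂ → M} {q : Y → P}
    {μ : Measure M} {D : Data M} (hAr : StArC) (hUT : IsUT Ω φ pr q) (h : Dt Ω φ pr μ D)
    (f : C(M, ℝ)) (hf : ContDiffOn ℝ ∞ (fun z => f (pr z)) Ω) {ν : Measure M}
    (hν : IsArea Ω (fun z => φ z + f (pr z)) pr ν) (lam : ℝ) (u : M → ℝ) :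
    WkEf Ω (fun z => φ z + f (pr z)) pr ν lam u ↔
      ∃ v : M → ℝ, u =ᵐ[ν] v ∧ IsEf Ω (fun z => φ z + f (pr z)) pr lam v := by
  have h1 := dt_conf hAr hUT h f
  have hfin : IsFiniteMeasure μ := (tFin M μ D h.surf).1
  have h2 := (hAr M P Ω φ pr q f μ hUT h.area hfin).2 ν hν
  subst h2
  have hUT' := ut_smooth hUT hf
  rw [tWk M P Ω φ pr q f _ _ hUT h1.surf h1.cmp lam u]
  constructor
  · intro hu
    obtain ⟨v, hv1, hv2, hv3⟩ := tEll M P Ω _ pr q _ _ hUT' h1.surf h1.cmp h1.area lam u hu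
    exact ⟨v, hv1, hv2, hv3⟩
  · rintro ⟨v, hv, hv2⟩
    obtain ⟨hm, F, hF1, hF2, hF3, hF4⟩ := green hUT' h1.surf h1.cmp h1.area hv2.1 hv2.2
    refine ⟨hm.ae_eq hv.symm, F, hF1, ?_, hF3, fun G hG => ?_⟩
    · refine hF2.congr fun k => integral_congr_ae ?_
      filter_upwards [hv] with x hx
      rw [hx]
    · have h3 := hF4 G hG
      have h4 : ∫ x, u x * G x ∂(wm μ fun x => Real.exp (2 * f x)) =
          ∫ x, v x * G x ∂(wm μ fun x => Real.exp (2 * f x)) := by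
        refine integral_congr_ae ?_
        filter_upwards [hv] with x hx
        rw [hx]
      rwa [h4]

/-- **Generic metrics: group actions.** -/
theorem finB (hAr : StArC) (G : Type) [Group G] (M : Type) [MetricSpace M] [CompactSpace M]
    [MeasurableSpace M] [BorelSpace M] (Ω : Set ℂ) (a : G → ℂ → ℂ) (φ : ℂ → ℝ) (pr : ℂ → M)
    (c : ℝ → ℂ) (R0 : ℝ) (γ₀ : G) (hA : Act G Ω a) (hI : Inva Ω φ a) (hpr : PrM Ω a pr)
    (hγ : ∀ z ∈ Ω, a γ₀ z = z + 2 * π * Complex.I) (hR : ∀ z ∈ Ω, z.re < R0)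
    (hneg : ∀ z ∈ Ω, curv φ z < 0) (hc : Cu Ω φ pr c) :
    (0 : C(M, ℝ)) ∈ Nf Ω φ pr ∧
    (∀ f : C(M, ℝ), ∃ μ : Measure M, IsArea Ω (fun z => φ z + f (pr z)) pr μ ∧
      IsFiniteMeasure μ ∧ ∃ u lam, WkB Ω (fun z => φ z + f (pr z)) pr μ u lam) ∧
    (∀ f : C(M, ℝ), ContDiffOn ℝ ∞ (fun z => f (pr z)) Ω → ∀ ν : Measure M,
      IsArea Ω (fun z => φ z + f (pr z)) pr ν → ∀ (lam : ℝ) (u : M → ℝ),
      (WkEf Ω (fun z => φ z + f (pr z)) pr ν lam u ↔
        ∃ v : M → ℝ, u =ᵐ[ν] v ∧ IsEf Ω (fun z => φ z + f (pr z)) pr lam v)) ∧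
    ∀ᶠ f : closure (Nf Ω φ pr) in residual (closure (Nf Ω φ pr)),
      ∃ g : C(M, ℝ), (∀ x, 0 ≤ g x) ∧
      ∀ ν : Measure M, IsArea Ω (fun z => φ z + f.1 (pr z)) pr ν → 0 < ∫ x, g x ∂ν ∧
      ∀ (u : ℕ → M → ℝ) (lam : ℕ → ℝ), WkB Ω (fun z => φ z + f.1 (pr z)) pr ν u lam →
      Tendsto lam atTop atTop ∧ ∃ J : Set ℕ,
        (∀ C : ℝ, ∃ᶠ Λ : ℝ in atTop, C * √Λ < ({j | j ∈ J ∧ lam j ≤ Λ}.ncard : ℝ)) ∧
        Tendsto (fun j => ∫ x, g x * (u j x) ^ 2 ∂ν) (atTop ⊓ 𝓟 J) (𝓝 0) := by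
  obtain ⟨P, iP, cP, q, hq, hUT⟩ := act_ut hA hI hpr
  have hGc := hc.gc hA hI hpr hγ
  obtain ⟨Γ, hAp⟩ := tFou c hGc.sm hGc.per
  obtain ⟨μ, D, hD, hM⟩ := dt_ex tCm hUT hGc hAp hR hneg
  refine ⟨⟨contDiffOn_const, fun z hz => ?_, c, ?_⟩, fun f => wk_ex tWk hAr hUT hD hM f,
    fun f hf ν hν lam u => wk_sm hAr hUT hD f hf hν lam u, ?_⟩
  · have e : (fun z => φ z + (0 : C(M, ℝ)) (pr z)) = φ := by
      funext z
      exact add_zero _
    rw [e]
    exact hneg z hz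
  · have e : (fun z => φ z + (0 : C(M, ℝ)) (pr z)) = φ := by
      funext z
      exact add_zero _
    rw [e]
    exact hc
  · filter_upwards [generic tWk tMs hAr hA hI hpr hγ hR hUT hD hM] with f hf
    obtain ⟨g, h1, h2, h3⟩ := hf
    refine ⟨g, h1, fun ν hν => ⟨?_, h3 ν hν⟩⟩
    have h4 := dt_conf hAr hUT hD f.1
    have hfin : IsFiniteMeasure μ := (tFin M μ D hD.surf).1
    have h5 := (hAr M P Ω φ pr q f.1 μ hUT hD.area hfin).2 ν hν
    subst h5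
    exact int_pos h4.surf h1 h2

end Pool.Agent.H240.BR
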