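import Pool.Agent.H240.BR.Fin2
import Pool.Agent.H240.BR.Ar

/-!
# Generic metrics: the auxiliary statements
-/

set_option autoImplicit false

namespace Pool.Agent.H240.BR

theorem tAr : StArC := stArC

end Pool.Agent.H240.BR
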