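import Mathlib

/-!
# A subsequence with a large counting function
-/

set_option autoImplicit false

open Set Filter Topology

namespace Pool.Agent.H240.BR

theorem seq1 {a lam : ℕ → ℝ} (hlt : Tendsto lam atTop atTop) (ha : ∀ j, 0 ≤ a j)
    (h : ∀ N : ℕ, ∃ Λ : ℝ, (N : ℝ) ≤ Λ ∧
      N * √Λ < ({j | a j ≤ 1 / ((N : ℝ) + 1) ∧ lam j ≤ Λ}.ncard : ℝ)) :
    ∃ J : Set ℕ, (∀ C : ℝ, ∃ᶠ Λ : ℝ in atTop, C * √Λ < ({j | j ∈ J ∧ lam j ≤ Λ}.ncard : ℝ)) ∧
      Tendsto a (atTop ⊓ 𝓟 J) (𝓝 0) := by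
  classical
  -- the number of indices
  have hfin : ∀ Λ : ℝ, ∃ k : ℕ, ∀ j, lam j ≤ Λ → j < k := by
    intro Λ
    obtain ⟨j0, hj0⟩ := (hlt.eventually (eventually_gt_atTop Λ)).exists_forall_of_atTop
    refine ⟨j0, fun j hj => ?_⟩
    by_contra hcon
    exact absurd hj (not_le.2 (hj0 j (not_lt.1 hcon)))
  choose kk hkk using hfin
  -- a scale for each pair
  have hst : ∀ N k : ℕ, ∃ Λ : ℝ, (N : ℝ) ≤ Λ ∧ (k : ℝ) ≤ √Λ ∧
      N * √Λ < ({j | a j ≤ 1 / ((N : ℝ) + 1) ∧ lam j ≤ Λ}.ncard : ℝ) := by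
    intro N k
    obtain ⟨Λ, h1, h2⟩ := h (max N (k ^ 2))
    have h3 : (N : ℝ) ≤ (max N (k ^ 2) : ℕ) := by exact_mod_cast le_max_left _ _
    have h4 : ((k : ℝ)) ^ 2 ≤ (max N (k ^ 2) : ℕ) := by exact_mod_cast le_max_right N (k ^ 2)
    refine ⟨Λ, h3.trans h1, Real.le_sqrt_of_sq_le (h4.trans h1), ?_⟩
    refine (mul_le_mul_of_nonneg_right h3 (Real.sqrt_nonneg _)).trans_lt (h2.trans_le ?_)
    refine Nat.cast_le.2 (ncard_le_ncard ?_ ?_)
    · rintro j ⟨h5, h6⟩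
      refine ⟨h5.trans ?_, h6⟩
      exact one_div_le_one_div_of_le (by positivity) (by linarith)
    · exact (finite_Iio (kk Λ)).subset fun j hj => hkk Λ j hj.2
  choose L hL1 hL2 hL3 using hst
  -- the sequence of the indices
  set k : ℕ → ℕ := fun n => Nat.rec 0 (fun m r => max (r + 1) (kk (L m r))) n with hk
  have hks : ∀ n, k (n + 1) = max (k n + 1) (kk (L n (k n))) := fun n => rfl
  have hkm : StrictMono k := strictMono_nat_of_lt_succ fun n => by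
    rw [hks]
    exact lt_of_lt_of_le (Nat.lt_succ_self _) (le_max_left _ _)
  set J : Set ℕ := {j | ∃ N, k N ≤ j ∧ a j ≤ 1 / ((N : ℝ) + 1) ∧ lam j ≤ L N (k N)} with hJ
  refine ⟨J, fun C => ?_, ?_⟩
  · rw [frequently_atTop]
    intro b
    obtain ⟨N, hN⟩ := exists_nat_ge (max b (C + 1))
    have hNb : b ≤ N := (le_max_left _ _).trans hN
    have hNC : C + 1 ≤ N := (le_max_right _ _).trans hN
    refine ⟨L N (k N), hNb.trans (hL1 N (k N)), ?_⟩
    have hsub : {j | a j ≤ 1 / ((N : ℝ) + 1) ∧ lam j ≤ L N (k N)} ⊆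
        {j | j ∈ J ∧ lam j ≤ L N (k N)} ∪ Iio (k N) := by
      rintro j ⟨h1, h2⟩
      rcases lt_or_ge j (k N) with h3 | h3
      · exact Or.inr h3
      · exact Or.inl ⟨⟨N, h3, h1, h2⟩, h2⟩
    have hf : {j | j ∈ J ∧ lam j ≤ L N (k N)}.Finite :=
      (finite_Iio (kk (L N (k N)))).subset fun j hj => hkk _ j hj.2
    have h3 := (ncard_le_ncard hsub (hf.union (finite_Iio _))).trans (ncard_union_le _ _)
    have h4 : (Iio (k N) : Set ℕ).ncard = k N := by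
      rw [← Finset.coe_Iio, ncard_coe_finset, Nat.card_Iio]
    rw [h4] at h3
    have h5 : ({j | a j ≤ 1 / ((N : ℝ) + 1) ∧ lam j ≤ L N (k N)}.ncard : ℝ) ≤
        ({j | j ∈ J ∧ lam j ≤ L N (k N)}.ncard : ℝ) + k N := by exact_mod_cast h3
    have h6 := hL3 N (k N)
    have h7 := hL2 N (k N)
    have h8 : (C + 1) * √(L N (k N)) ≤ N * √(L N (k N)) :=
      mul_le_mul_of_nonneg_right hNC (Real.sqrt_nonneg _)
    have h9 : (C + 1) * √(L N (k N)) = C * √(L N (k N)) + √(L N (k N)) := by ring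
    linarith
  · rw [Metric.tendsto_nhds]
    intro ε hε
    obtain ⟨N, hN⟩ := exists_nat_one_div_lt hε
    rw [eventually_inf_principal]
    filter_upwards [eventually_ge_atTop (k N)] with j hj
    rintro ⟨N', h1, h2, h3⟩
    have h4 : j < k (N' + 1) := by
      rw [hks]
      exact (hkk _ j h3).trans_le (le_max_right _ _)
    have h5 : N ≤ N' := by
      by_contra hcon
      have h6 : k (N' + 1) ≤ k N := hkm.monotone (show N' + 1 ≤ N by omega)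
      omega
    rw [Real.dist_eq, sub_zero, abs_of_nonneg (ha j)]
    refine (h2.trans ?_).trans_lt hN
    have h7 : (N : ℝ) ≤ N' := by exact_mod_cast h5
    exact one_div_le_one_div_of_le (by positivity) (by linarith)

/-- pigeonhole: infinitely many scales suffice -/
theorem mono_scale {a lam : ℕ → ℝ} (hlt : Tendsto lam atTop atTop)
    (h : ∀ M : ℕ, ∃ N : ℕ, M ≤ N ∧ ∃ Λ : ℝ, (N : ℝ) ≤ Λ ∧
      N * √Λ < ({j | a j ≤ 1 / ((N : ℝ) + 1) ∧ lam j ≤ Λ}.ncard : ℝ)) (N : ℕ) :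
    ∃ Λ : ℝ, (N : ℝ) ≤ Λ ∧
      N * √Λ < ({j | a j ≤ 1 / ((N : ℝ) + 1) ∧ lam j ≤ Λ}.ncard : ℝ) := by
  obtain ⟨N', hN, Λ, h1, h2⟩ := h N
  have h3 : (N : ℝ) ≤ N' := by exact_mod_cast hN
  refine ⟨Λ, h3.trans h1, (mul_le_mul_of_nonneg_right h3 (Real.sqrt_nonneg _)).trans_lt
    (h2.trans_le (Nat.cast_le.2 (ncard_le_ncard ?_ ?_)))⟩
  · rintro j ⟨h5, h6⟩
    exact ⟨h5.trans (one_div_le_one_div_of_le (by positivity) (by linarith)), h6⟩
  · obtain ⟨j0, hj0⟩ := (hlt.eventually (eventually_gt_atTop Λ)).exists_forall_of_atTop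
    refine (finite_Iio j0).subset fun j hj => ?_
    by_contra hcon
    exact absurd hj.2 (not_le.2 (hj0 j (not_lt.1 hcon)))

end Pool.Agent.H240.BR
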