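import Pool.Agent.H240.BR.Dat
import Pool.Agent.H240.BR.Seq1

/-!
# Generic metrics: windows for all nearby continuous metrics
-/

set_option autoImplicit false
set_option linter.unusedSectionVars false

open Set Filter Topology MeasureTheory
open scoped ContDiff ComplexConjugate Real

noncomputable section

namespace Pool.Agent.H240.BR

open Pool.Agent.Y262.EG Pool.Agent.Y262.EX Pool.Agent.Y262.EL Pool.Agent.Y262.QE
open Pool.Agent.Y264.QR Pool.Agent.H240.SC Pool.Agent.H240.SG Pool.Agent.H240.CG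
open Pool.Agent.H240.AL Pool.Agent.H240.GU Pool.Agent.H240.GV

/-- an ordered orthonormal basis of weak eigenfunctions -/
structure WkB {M : Type} [MeasurableSpace M] (Ω : Set ℂ) (Φ : ℂ → ℝ) (pr : ℂ → M) (μ : Measure M)
    (u : ℕ → M → ℝ) (lam : ℕ → ℝ) : Prop where
  eig : ∀ j, WkEf Ω Φ pr μ (lam j) (u j)
  mono : Monotone lam
  orth : ∀ i j, ∫ x, u i x * u j x ∂μ = if i = j then 1 else 0
  total : ∀ f : M → ℝ, MemLp f 2 μ → (∀ j, ∫ x, f x * u j x ∂μ = 0) → f =ᵐ[μ] 0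

section

variable {M P : Type} [MetricSpace M] [CompactSpace M] [MetricSpace P] [CompactSpace P]
  [MeasurableSpace M] [BorelSpace M] {Ω : Set ℂ} {φ : ℂ → ℝ} {pr : ℂ → M} {q : Y → P}
  {μ : Measure M} {D : Data M}

/-- weak bases exist for all continuous metrics -/
theorem wk_ex (hWk : StWk) (hAr : StArC) (hUT : IsUT Ω φ pr q) (h : Dt Ω φ pr μ D)
    (hM : Nonempty M) (f : C(M, ℝ)) : ∃ μ' : Measure M,
    IsArea Ω (fun z => φ z + f (pr z)) pr μ' ∧ IsFiniteMeasure μ' ∧ ∃ u lam,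
      WkB Ω (fun z => φ z + f (pr z)) pr μ' u lam := by
  have h1 := dt_conf hAr hUT h f
  obtain ⟨u, lam, hu⟩ := tEx M μ D h.surf hM ((2 : ℝ) • f)
  refine ⟨_, h1.area, (tFin M _ _ h1.surf).1, u, lam, fun j => ?_, hu.mono, hu.orth, hu.total⟩
  exact (hWk M P Ω φ pr q f _ _ hUT h1.surf h1.cmp (lam j) (u j)).2 (hu.eig j)

/-- weak bases in the sense of the charts -/
theorem wk_basis (hWk : StWk) (hAr : StArC) (hUT : IsUT Ω φ pr q) (h : Dt Ω φ pr μ D)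
    (f : C(M, ℝ)) {ν : Measure M} (hν : IsArea Ω (fun z => φ z + f (pr z)) pr ν)
    {u : ℕ → M → ℝ} {lam : ℕ → ℝ} (hu : WkB Ω (fun z => φ z + f (pr z)) pr ν u lam) :
    ν = (wm μ fun x => Real.exp (2 * f x)) ∧
    EigBasis (D.conf fun x => Real.exp (2 * f x)) (wm μ fun x => Real.exp (2 * f x)) u lam := by
  have h1 := dt_conf hAr hUT h f
  have hfin : IsFiniteMeasure μ := (tFin M μ D h.surf).1
  have h2 := (hAr M P Ω φ pr q f μ hUT h.area hfin).2 ν hν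
  subst h2
  exact ⟨rfl, fun j => (hWk M P Ω φ pr q f _ _ hUT h1.surf h1.cmp (lam j) (u j)).1 (hu.eig j),
    hu.mono, hu.orth, hu.total⟩

/-- the eigenvalues tend to infinity -/
theorem wk_tt (hWk : StWk) (hAr : StArC) (hUT : IsUT Ω φ pr q) (h : Dt Ω φ pr μ D)
    (hM : Nonempty M) (f : C(M, ℝ)) {ν : Measure M}
    (hν : IsArea Ω (fun z => φ z + f (pr z)) pr ν)
    {u : ℕ → M → ℝ} {lam : ℕ → ℝ} (hu : WkB Ω (fun z => φ z + f (pr z)) pr ν u lam) :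
    Tendsto lam atTop atTop := by
  have h1 := (wk_basis hWk hAr hUT h f hν hu).2
  exact Pool.Agent.H240.NL.eb_tt (φ := (2 : ℝ) • f) h.surf hM h1

/-- windows -/
theorem win_c (hWk : StWk) (hAr : StArC) (hUT : IsUT Ω φ pr q) (h : Dt Ω φ pr μ D)
    (hM : Nonempty M) (f : C(M, ℝ)) (hf : ContDiffOn ℝ ∞ (fun z => f (pr z)) Ω)
    {g : C(M, ℝ)} (hs : ∀ μ' : Measure M, IsArea Ω (fun z => φ z + f (pr z)) pr μ' →
      ∀ (u : ℕ → M → ℝ) (lam : ℕ → ℝ), EB Ω (fun z => φ z + f (pr z)) pr μ' u lam →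
      ∃ J : Set ℕ, (∀ C : ℝ, ∃ᶠ Λ : ℝ in atTop, C * √Λ < ({j | j ∈ J ∧ lam j ≤ Λ}.ncard : ℝ)) ∧
        Tendsto (fun j => ∫ x, g x * (u j x) ^ 2 ∂μ') (atTop ⊓ 𝓟 J) (𝓝 0)) (C ε Λ0 : ℝ)
    (hε : 0 < ε) : ∃ η : ℝ, 0 < η ∧ ∀ f' : C(M, ℝ), ‖f' - f‖ < η → ∀ ν : Measure M,
      IsArea Ω (fun z => φ z + f' (pr z)) pr ν → ∀ (u : ℕ → M → ℝ) (lam : ℕ → ℝ),
      WkB Ω (fun z => φ z + f' (pr z)) pr ν u lam → ∃ Λ : ℝ, Λ0 ≤ Λ ∧
        C * √Λ < ({j | (∫ x, g x * (u j x) ^ 2 ∂ν) ≤ ε ∧ lam j ≤ Λ}.ncard : ℝ) := by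
  have h1 := dt_conf hAr hUT h f
  have hgood : ∀ (u : ℕ → M → ℝ) (lam : ℕ → ℝ),
      EigBasis (D.conf fun x => Real.exp (((2 : ℝ) • f) x))
        (wm μ fun x => Real.exp (((2 : ℝ) • f) x)) u lam →
      ∃ J : Set ℕ, (∀ C : ℝ, ∃ᶠ Λ : ℝ in atTop,
        C * Real.sqrt Λ < ({j | j ∈ J ∧ lam j ≤ Λ}.ncard : ℝ)) ∧
        Tendsto (fun j => ∫ x, g x * (u j x) ^ 2 ∂(wm μ fun x => Real.exp (((2 : ℝ) • f) x)))
          (atTop ⊓ 𝓟 J) (𝓝 0) := by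
    intro u lam hu
    obtain ⟨v, hv, huv⟩ := eb_ex2 (ut_smooth hUT hf) h1.surf h1.cmp h1.area hu
    obtain ⟨J, hJ1, h4⟩ := hs _ h1.area v lam hv
    refine ⟨J, hJ1, ?_⟩
    refine h4.congr fun j => integral_congr_ae ?_
    filter_upwards [huv j] with x hx
    rw [hx]
  obtain ⟨Λ1, η, hη, hstb⟩ := Pool.Agent.H240.NL.stabL μ D h.surf hM ((2 : ℝ) • f) g hgood C
    ε Λ0 hε
  refine ⟨η / 2, by positivity, fun f' hff ν hν u lam hu => ?_⟩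
  obtain ⟨h2, h3⟩ := wk_basis hWk hAr hUT h f' hν hu
  have e1 : (fun x => Real.exp (2 * f' x)) =
      fun x => Real.exp (((2 : ℝ) • f + (2 : ℝ) • (f' - f)) x) := by
    funext x
    congr 1
    show 2 * f' x = 2 * f x + 2 * (f' x - f x)
    ring
  rw [e1] at h2 h3
  have hn : ‖(2 : ℝ) • (f' - f)‖ < η := by
    rw [norm_smul, Real.norm_eq_abs, abs_two]
    linarith
  obtain ⟨Λ, hΛ0, -, hΛ⟩ := hstb _ hn u lam h3
  subst h2
  exact ⟨Λ, hΛ0, hΛ⟩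

end

end Pool.Agent.H240.BR
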